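import Pool.Agent.KS6_46.BM.Main

/-!
# The cardinal characteristics in the final model
-/

set_option autoImplicit false
set_option linter.unusedSectionVars false

namespace Pool.Agent.KS6_46.BM

open Classical Cardinal Pool.Agent.W684.BMA

/-- The uniformity of an ideal: the least size of a set which is not in the ideal. -/
noncomputable def uniformity (J : Set (Set (ℕ → ZMod 2))) : Cardinal.{0} :=
  sInf {c | ∃ X : Set (ℕ → ZMod 2), #X = c ∧ X ∉ J}

theorem mk_cant : #(ℕ → ZMod 2) = 𝔠 := by
  have h : #(ZMod 2) = 2 := by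
    rw [Cardinal.mk_fintype, ZMod.card]
    rfl
  rw [← Cardinal.power_def, h, Cardinal.mk_nat, Cardinal.two_power_aleph0]

/-- countable families are bounded -/
theorem aleph_one_le_bounding : ℵ₁ ≤ bounding := by
  obtain ⟨F, hF, hunb⟩ := bounding_mem
  rw [← hF]
  by_contra hcon
  rw [not_le] at hcon
  have hc : F.Countable := by
    rw [← Cardinal.le_aleph0_iff_set_countable]
    rw [← Cardinal.succ_aleph0] at hcon
    exact Order.lt_succ_iff.1 hcon
  apply hunb
  rcases F.eq_empty_or_nonempty with rfl | hne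
  · exact ⟨fun _ => 0, fun f hf => absurd hf (Set.notMem_empty f)⟩
  obtain ⟨e, he⟩ := hc.exists_eq_range hne
  refine ⟨fun n => ∑ k ∈ Finset.range (n + 1), e k n, fun f hf => ?_⟩
  rw [he] at hf
  obtain ⟨k, rfl⟩ := hf
  rw [Filter.eventually_atTop]
  refine ⟨k, fun n hn => ?_⟩
  exact Finset.single_le_sum (f := fun k => e k n) (fun i _ => Nat.zero_le _)
    (Finset.mem_range.2 (by omega))

theorem additivity_meager_mem : ∃ F : Set (Set Cant), F ⊆ MeagerSets ∧
    #F = additivity MeagerSets ∧ ⋃₀ F ∉ MeagerSets := by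
  have : (additivity MeagerSets) ∈ {c | ∃ F : Set (Set (ℕ → ZMod 2)), F ⊆ MeagerSets ∧ #F = c ∧
      ⋃₀ F ∉ MeagerSets} := by
    apply csInf_mem
    refine ⟨_, MeagerSets, Set.Subset.refl _, rfl, fun h => ?_⟩
    have h1 : ⋃₀ MeagerSets = (Set.univ : Set Cant) := by
      refine Set.eq_univ_of_forall fun x => ⟨{x}, ?_, rfl⟩
      refine (isMeagre_NM inf_true (fun n => x n + 1)).mono ?_
      intro y hy
      rw [Set.mem_singleton_iff] at hy
      subst hy
      exact ⟨0, fun a a' _ h => ⟨a, le_rfl, h.1, by simp⟩⟩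
    rw [h1] at h
    have h2 : (Set.univ : Set Cant).Nonempty := ⟨0, trivial⟩
    exact not_isMeagre_of_isOpen isOpen_univ h2 h
  exact this

theorem aleph_one_le_additivity : ℵ₁ ≤ additivity MeagerSets := by
  obtain ⟨F, hF, hcard, hun⟩ := additivity_meager_mem
  rw [← hcard]
  by_contra hcon
  rw [not_le] at hcon
  have hc : F.Countable := by
    rw [← Cardinal.le_aleph0_iff_set_countable]
    rw [← Cardinal.succ_aleph0] at hcon
    exact Order.lt_succ_iff.1 hcon
  apply hun
  have := hc.to_subtype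
  show IsMeagre (⋃₀ F)
  rw [Set.sUnion_eq_iUnion]
  exact isMeagre_iUnion fun i => hF i.2

/-- **The values of the cardinal characteristics.** -/
theorem values {J K L : Type} [Infinite K] [LinearOrder L] [WellFoundedLT L] (hJ : #J ≤ ℵ₁)
    (hL : ∀ l : L, Nonempty (Set.Iio l ↪ K)) (h : PsiFor J K L) :
    bounding = ℵ₁ ∧ additivity MeagerSets = ℵ₁ ∧ 𝔠 = Order.succ #K ∧
      MASets = {X : Set (ℕ → ZMod 2) | #X < 𝔠} ∧ additivity MASets = 𝔠 ∧ uniformity MASets = 𝔠 := by
  obtain ⟨⟨f, hf⟩, hall, hfew, hlist⟩ := h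
  have hb : bounding = ℵ₁ := by
    refine le_antisymm ?_ aleph_one_le_bounding
    have hmem : ¬ ∃ g : ℕ → ℕ, ∀ e ∈ Set.range f, ∀ᶠ n in Filter.atTop, e n ≤ g n := by
      rintro ⟨g, hg⟩
      obtain ⟨k, hk⟩ := hf g
      obtain ⟨N, hN⟩ := Filter.eventually_atTop.1 (hg (f k) ⟨k, rfl⟩)
      obtain ⟨n, hn, hn'⟩ := hk N
      exact absurd (hN n hn) (not_le.2 hn')
    have h0 : bounding ≤ #(Set.range f) := csInf_le' ⟨Set.range f, rfl, hmem⟩
    exact (h0.trans Cardinal.mk_range_le).trans hJ
  have hadd : additivity MeagerSets = ℵ₁ :=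
    le_antisymm (additivity_meager_le.trans hb.le) aleph_one_le_additivity
  -- small sets are meager-additive
  have hsmall : ∀ X : Set Cant, #X ≤ #K → MeagerAdditive X := by
    intro X hX
    apply meagerAdditive_of_captured
    intro A hA
    rcases X.eq_empty_or_nonempty with h4 | h4
    · exact ⟨A, A, hA, fun x hx => by rw [h4] at hx; exact absurd hx (Set.notMem_empty x)⟩
    · obtain ⟨ι⟩ := hX
      have hne : Nonempty X := h4.to_subtype
      obtain ⟨B, y, hB, h5⟩ := hall (fun k => toP (Function.invFun ι k).1) A hA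
      refine ⟨B, y, hB, fun x hx => ?_⟩
      have h6 := h5 (ι ⟨x, hx⟩)
      rwa [Function.leftInverse_invFun ι.injective] at h6
  -- the cardinal of the continuum
  have hKc : #K < 𝔠 := by
    by_contra hcon
    rw [not_lt] at hcon
    exact not_meagerAdditive_univ (hsmall Set.univ (by
      rw [Cardinal.mk_univ, mk_cant]
      exact hcon))
  have hcL : 𝔠 ≤ #L := by
    obtain ⟨x, hx⟩ := hlist
    have hinv : ∀ y : Cant, ∃ l, ∀ n, toP y n ↔ x l n := fun y => hx (toP y)
    choose g hg using hinv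
    rw [← mk_cant]
    refine Cardinal.mk_le_of_injective (f := g) fun y y' hyy => ?_
    funext n
    exact toP_iff.1 ((hg y n).trans (hyy ▸ (hg y' n).symm))
  have hLK : #L ≤ Order.succ #K := by
    by_contra hcon
    rw [not_le] at hcon
    have h4 : (Order.succ #K).ord < Ordinal.type ((· < ·) : L → L → Prop) :=
      (Cardinal.ord_lt_ord.2 hcon).trans_le (Cardinal.ord_le_type _)
    obtain ⟨l, hl⟩ := Ordinal.typein_surj ((· < ·) : L → L → Prop) h4
    have h5 := congrArg Ordinal.card hl
    rw [Cardinal.card_ord, Ordinal.card_typein] at h5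
    have h6 : Order.succ #K ≤ #K := by
      rw [← h5]
      exact hL l
    exact absurd h6 (not_le.2 (Order.lt_succ _))
  have hc : 𝔠 = Order.succ #K :=
    le_antisymm (hcL.trans hLK) (Order.succ_le_of_lt hKc)
  -- the meager-additive sets are small
  have hbig : ∀ X : Set Cant, MeagerAdditive X → #X < 𝔠 := by
    intro X hX
    rw [hc]
    refine lt_of_lt_of_le ?_ hLK
    by_contra h4
    rw [not_lt] at h4
    obtain ⟨ι⟩ := h4
    obtain ⟨A, hA, h5⟩ := hfew (fun l => toP (ι l).1) (by
      intro l l' hne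
      by_contra h6
      push Not at h6
      apply hne
      apply ι.injective
      apply Subtype.ext
      funext n
      exact toP_iff.1 (h6 n))
    obtain ⟨B, y, hB, h6⟩ := captured_of_meagerAdditive hX hA
    obtain ⟨l, hl⟩ := h5 B y hB
    exact hl (h6 _ (ι l).2)
  have hMA : MASets = {X : Set (ℕ → ZMod 2) | #X < 𝔠} := by
    ext X
    refine ⟨fun hX => hbig X hX, fun hX => hsmall X ?_⟩
    have h1 : #X < 𝔠 := hX
    rw [hc] at h1
    exact Order.lt_succ_iff.1 h1
  have huniv : (Set.univ : Set Cant) ∉ MASets := not_meagerAdditive_univ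
  refine ⟨hb, hadd, hc, hMA, le_antisymm ?_ ?_, le_antisymm ?_ ?_⟩
  · have h1 : additivity MASets ≤ #(Set.range fun x : Cant => ({x} : Set Cant)) := by
      refine csInf_le' ⟨_, ?_, rfl, fun hM => huniv ?_⟩
      · rintro _ ⟨x, rfl⟩
        exact meagerAdditive_singleton x
      · refine MeagerAdditive.mono hM fun x _ => ?_
        exact ⟨{x}, ⟨x, rfl⟩, rfl⟩
    refine h1.trans (Cardinal.mk_range_le.trans ?_)
    rw [mk_cant]
  · obtain ⟨F, hFMA, hF, hFU⟩ := additivity_MA_mem
    rw [← hF, hc]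
    apply Order.succ_le_of_lt
    by_contra hcon
    rw [not_lt] at hcon
    apply hFU
    apply hsmall
    refine (Cardinal.mk_sUnion_le F).trans ?_
    calc #F * _ ≤ #K * #K := by
          apply mul_le_mul' hcon
          apply ciSup_le'
          intro X
          have h1 := hbig X.1 (hFMA X.2)
          rw [hc] at h1
          exact Order.lt_succ_iff.1 h1
      _ = #K := Cardinal.mul_eq_self (Cardinal.aleph0_le_mk K)
  · refine csInf_le' ⟨Set.univ, ?_, huniv⟩
    rw [Cardinal.mk_univ, mk_cant]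
  · refine le_csInf ⟨_, Set.univ, rfl, huniv⟩ ?_
    rintro c ⟨X, rfl, hX⟩
    rw [hMA] at hX
    exact not_lt.1 hX

end Pool.Agent.KS6_46.BM
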