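import Pool.Agent.KS6_46.BM.Unb
import Pool.Graph.R_seed8.W684.BMA.Inv

/-!
# The forcing theorem
-/

set_option autoImplicit false
set_option linter.unusedSectionVars false
set_option linter.deprecated false

namespace Pool.Agent.KS6_46.BM

open Classical Cardinal Pool.Agent.Helper669.Forcing Pool.Agent.W684 Pool.Agent.W684.BMA

/-- Some family of reals indexed by `L` contains all reals. -/
def Listed (L : Type) : Prop :=
  ∃ x : L → ℕ → Prop, ∀ y : ℕ → Prop, ∃ l, ∀ n, y n ↔ x l n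

/-- Forcing version of `Listed`. -/
def ListedN (P : Type) [Preorder P] (L : Type) : Set P :=
  fex fun x : L → ℕ → Set P => fall fun y : ℕ → Set P => fex fun l => fall fun n =>
    fiff (meets (y n)) (meets (x l n))

/-- Some family of functions indexed by `J` is unbounded; every family of reals indexed by `K` is
captured, for every partition; no family of different reals indexed by `L` is captured for all
partitions; the family of all reals can be indexed by `L`. -/
def PsiFor (J K L : Type) : Prop :=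
  Unbounded J ∧ AllCaptured K ∧ FewCaptured L ∧ Listed L

/-- The sentence `PsiFor J K L` of the forcing language. -/
def PsiHolds (P : Type) [Preorder P] (J K L : Type) : Set P :=
  fand (UnboundedN P J) (fand (AllCapturedN P K) (fand (FewCapturedN P L) (ListedN P L)))

section

variable {K I : Type} [LinearOrder I] [WellFoundedLT I] {Γ : Par K I}

theorem listedN [Infinite K] (hI : FM.Bdd K I)
    (hA : ∀ (x : Nm K I) (β δ : I), Supp (Set.Iio δ) x → ∃ j, β ≤ j ∧ Γ.A j = x)
    (p : PP Γ) : p ∈ ListedN (PP Γ) I := by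
  refine mem_fex_of_mem (fun l => nameOf Γ (Γ.A l)) (down_fall fun _ => down_fex _) fun y => ?_
  obtain ⟨w, hw⟩ := exists_raw_name y
  obtain ⟨δ, hδ⟩ := exists_supp hI (J := Unit) (by
    rw [Cardinal.mk_unit]
    exact Cardinal.one_le_aleph0.trans (Cardinal.aleph0_le_mk K)) fun _ => w
  obtain ⟨j, -, hj⟩ := hA w δ δ (hδ δ le_rfl ())
  have hrep : Rep Γ w y := hw
  refine mem_fex_of_mem j (down_fall fun _ => down_fiff _ _) fun n => ?_
  have h1 : meets (y n) = meets (nameOf Γ (Γ.A j) n) := by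
    rw [hj]
    exact hrep.meets_eq n
  show p ∈ fiff (meets (y n)) (meets (nameOf Γ (Γ.A j) n))
  rw [h1]
  exact mem_fiff (fun q _ => ⟨q, le_rfl, Iff.rfl⟩) (down_meets _) (down_meets _)

end

/-- the set of the stages has an element of cofinality `ω₁` -/
theorem exists_om1 (K : Type) [Infinite K] (hK1 : ℵ₁ ≤ #K) :
    ∃ (i₀ : (Order.succ #K).ord.ToType) (f : FM.Om1 → (Order.succ #K).ord.ToType),
      CB (Set.Iio i₀) ∧ (∀ w, f w < i₀) ∧ ∀ β < i₀, ∃ w, β ≤ f w := by
  have h1 : Ordinal.type ((· < ·) : FM.Om1 → FM.Om1 → Prop) <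
      Ordinal.type ((· < ·) : (Order.succ #K).ord.ToType → (Order.succ #K).ord.ToType → Prop) := by
    rw [Ordinal.type_toType, Ordinal.type_toType]
    exact Cardinal.ord_lt_ord.2 (hK1.trans_lt (Order.lt_succ _))
  obtain ⟨f⟩ := Ordinal.type_lt_iff.1 h1
  have hcof : ∀ β < f.top, ∃ w, f w = β := fun β hβ => f.mem_range_iff_rel.2 hβ
  refine ⟨f.top, f, fun C hC hCα => ?_, fun w => f.lt_top w, fun β hβ => ?_⟩
  · rcases C.eq_empty_or_nonempty with rfl | hne
    · obtain ⟨w⟩ : Nonempty FM.Om1 := by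
        rw [← Cardinal.mk_ne_zero_iff, Cardinal.mk_ord_toType]
        exact (Cardinal.aleph_pos 1).ne'
      exact ⟨f w, f.lt_top w, fun i hi => absurd hi (Set.notMem_empty i)⟩
    · obtain ⟨c, hc⟩ := hC.exists_eq_range hne
      have h2 : ∀ n, ∃ w, f w = c n := fun n => hcof _ (hCα (hc ▸ ⟨n, rfl⟩))
      choose w hw using h2
      obtain ⟨a, ha⟩ := FM.exists_bound w
      obtain ⟨b, hb⟩ := FM.exists_gt_om1 a
      refine ⟨f b, f.lt_top b, fun i hi => ?_⟩
      rw [hc] at hi
      obtain ⟨n, rfl⟩ := hi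
      rw [← hw n]
      exact f.map_rel_iff.2 ((ha n).trans_lt hb)
  · obtain ⟨w, hw⟩ := hcof β hβ
    exact ⟨w, hw.ge⟩

theorem aleph_one_le {κ : Cardinal.{0}} (h0 : ℵ₀ ≤ κ) (h : κ ^ ℵ₀ = κ) : ℵ₁ ≤ κ := by
  rw [← h]
  calc ℵ₁ ≤ 𝔠 := Cardinal.aleph_one_le_continuum
    _ = 2 ^ ℵ₀ := Cardinal.two_power_aleph0.symm
    _ ≤ κ ^ ℵ₀ := Cardinal.power_le_power_right ((Cardinal.nat_lt_aleph0 2).le.trans h0)

/-- The combinatorial sentence is forced by all conditions of some preorder. -/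
theorem exists_forcing (K : Type) [Infinite K] (hK : #K ^ ℵ₀ = #K) :
    ∃ (P : Type) (_ : Preorder P), Nonempty P ∧ FM.PCCC P ∧
      ∀ p : P, p ∈ PsiHolds P FM.Om1 K (Order.succ #K).ord.ToType := by
  have hK1 : ℵ₁ ≤ #K := aleph_one_le (Cardinal.aleph0_le_mk K) hK
  obtain ⟨Γ, hΓ, hA⟩ := exists_par K hK
  obtain ⟨i₀, f, hCB, hf, hcof⟩ := exists_om1 K hK1
  have hI := FM.bdd_succ K
  have hIio : ∀ δ : (Order.succ #K).ord.ToType, #(Set.Iio δ) ≤ #K := fun δ =>
    Order.lt_succ_iff.1 (Cardinal.mk_Iio_toType_ord_lt δ)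
  have hI' : #((Order.succ #K).ord.ToType) = Order.succ #K := by
    rw [Cardinal.mk_ord_toType]
  have hne : Nonempty (Order.succ #K).ord.ToType := ⟨i₀⟩
  -- the first coordinates handle the partition into singletons
  let Γ' : Par K (Order.succ #K).ord.ToType :=
    ⟨fun j => if j < i₀ then allName K _ else Γ.A j, Γ.e⟩
  have hΓ' : Full Γ' := hΓ
  have hA1 : ∀ w, Γ'.A (f w) = allName K _ := fun w => if_pos (hf w)
  have hA' : ∀ (x : Nm K (Order.succ #K).ord.ToType) (β δ : (Order.succ #K).ord.ToType),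
      Supp (Set.Iio δ) x → ∃ j, β ≤ j ∧ Γ'.A j = x := by
    intro x β δ hx
    obtain ⟨j, hj, hjx⟩ := hA x (max β i₀) δ hx
    refine ⟨j, (le_max_left _ _).trans hj, ?_⟩
    show (if j < i₀ then allName K _ else Γ.A j) = x
    rw [if_neg (not_lt.2 ((le_max_right _ _).trans hj)), hjx]
  refine ⟨PP Γ', inferInstance, ⟨(Cond.one : Cond _ _)⟩, pccc, fun p => ?_⟩
  refine ⟨unboundedN_small hΓ' hCB f hf hcof hA1 p, allCapturedN hΓ' hI hA' p,
    fewCapturedN hΓ' hI hIio hK hK1 ?_ p, listedN hI hA' p⟩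
  rw [hI']
  exact Order.lt_succ _

end Pool.Agent.KS6_46.BM
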