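import Pool.Graph.R_seed8.W684.BMA.Forced

/-!
# The generic partitions of the first `ω₁` coordinates are not bounded

If the bookkeeping hands out the partition into singletons at the coordinates `f w`, `w ∈ W`, which
are cofinal in a coordinate `i₀` of uncountable cofinality, then the functions
`n ↦ min (B \ n)`, where `B` is the generic partition at the coordinate `f w`, form an unbounded
family in the final model.
-/

set_option autoImplicit false
set_option linter.unusedSectionVars false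

namespace Pool.Agent.KS6_46.BM

open Classical Pool.Agent.Helper669.Forcing Pool.Agent.W684 Pool.Agent.W684.BMA

variable {K I : Type} [LinearOrder I] [WellFoundedLT I] {Γ : Par K I}

/-- the name of the partition into singletons -/
def allName (K I : Type) : Nm K I := fun _ _ => some Cond.one

theorem bit_allName {T : Set I} (t : Cond K I) (n : ℕ) :
    Bit (le Γ T) t (allName K I) n true :=
  bit_true.2 ⟨0, Cond.one, rfl, fun _ _ => ext_top rfl⟩

theorem supp_allName (T : Set I) : Supp T (allName K I) := by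
  intro n m u hu i _
  have h : (Cond.one : Cond K I) = u := Option.some_injective _ hu
  rw [← h]
  rfl

theorem infN_allName (p : PP Γ) : p ∈ InfN (nameOf Γ (allName K I)) := by
  intro m
  refine mem_fex_of_mem m (down_fand (down_fground _) (down_meets _)) ⟨mem_fground.2 le_rfl, ?_⟩
  exact meets_of_mem (P := PP Γ) (bit_allName p m)

section

variable {j : I}

/-- the stem can be extended by an arbitrarily long block -/
theorem exists_block_long (hA : Γ.A j = allName K I) (L : ℕ) (r : PP Γ) :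
    ∃ r' : PP Γ, r' ≤ r ∧ ∃ β : List Bool, L ≤ β.length ∧
      PP.toC (Γ := Γ) r' j = ⟨(PP.toC (Γ := Γ) r j).stem ++ [β], (PP.toC (Γ := Γ) r j).pr⟩ := by
  have hrep : Rep Γ (Γ.A j) (nameOf Γ (Γ.A j)) := rep_nameOf _
  have hs : Supp (Set.Iio j) (Γ.A j) := hA ▸ supp_allName _
  have hq : r ∈ InfN (nameOf Γ (Γ.A j)) := by
    rw [hA]
    exact infN_allName r
  obtain ⟨r0, hr0⟩ : ∃ r0 : Cond K I, r0 = r := ⟨r, rfl⟩
  obtain ⟨t, ht, β, hβ, hcap⟩ := exists_bits hrep hs hq (len (r0 j).stem) (r0 j).pr r le_rfl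
  obtain ⟨t0, ht0⟩ : ∃ t0 : Cond K I, t0 = t := ⟨t, rfl⟩
  subst hr0 ht0
  refine ⟨upd (mix (Set.Iio j) t0 r0) j
    ⟨(r0 j).stem ++ [β ++ List.replicate L false], (r0 j).pr⟩, ?_,
    β ++ List.replicate L false, by simp, upd_same _ _ _⟩
  intro i _
  rcases lt_trichotomy i j with h | rfl | h
  · refine ext_congr i (fun l hl => ?_) rfl (ht i (Set.mem_univ i))
    rw [upd_of_ne _ _ (ne_of_lt (hl.trans_lt h)),
      mix_mem _ _ (show l ∈ Set.Iio j from hl.trans_lt h)]
  · rw [ext_iff, upd_same]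
    refine ⟨List.prefix_append _ _, List.Subset.refl _, fun k hk t' ht' α ξ hα hξ => ?_⟩
    have h1 : le Γ (Set.Iio i) t' t0 := by
      refine le_congr (lower_Iio i) (fun _ _ => rfl) (fun l hl => ?_) ht'
      rw [upd_of_ne _ _ (ne_of_lt hl), mix_mem _ _ hl]
    have hlen : len ((r0 i).stem ++ [β ++ List.replicate L false]) =
        len (r0 i).stem + (β.length + L) := by
      simp [len]
    simp only at hα hξ ⊢
    rw [hlen] at hα hξ
    have h2 := hcap t' h1 k hk α ξ (fun n hn => hα n (by omega)) (fun n hn => hξ n (by omega))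
    intro m hm hm'
    have hm2 : m = (r0 i).stem.length := by
      rw [List.length_append, List.length_singleton] at hm'
      omega
    subst hm2
    rw [off_snoc_left, off_snoc_right]
    refine cap_mono (by rw [List.length_append]; omega) (fun n hn hn' => ?_) h2
    rw [bits_snoc _ _ hn, List.getD_append _ _ _ _ (by omega)]
  · have h1 : (upd (mix (Set.Iio j) t0 r0) j
        ⟨(r0 j).stem ++ [β ++ List.replicate L false], (r0 j).pr⟩) i = r0 i := by
      rw [upd_of_ne _ _ (ne_of_gt h), mix_notMem _ _ (by simp [h.le])]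
    exact ext_same_stem (by rw [h1]) (by rw [h1]; exact fun _ h => h)

/-- the function which sends `n` to the least element `b ≥ n` of the generic partition -/
def genD (Γ : Par K I) (j : I) (n b : ℕ) : Set (PP Γ) :=
  {r | n ≤ b ∧ ∃ i ≤ (PP.toC (Γ := Γ) r j).stem.length, off (PP.toC (Γ := Γ) r j).stem i = b ∧
    ∀ i' ≤ (PP.toC (Γ := Γ) r j).stem.length, off (PP.toC (Γ := Γ) r j).stem i' < n ∨
      b ≤ off (PP.toC (Γ := Γ) r j).stem i'}

theorem down_genD (j : I) (n b : ℕ) : Down (genD Γ j n b) := by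
  rintro p ⟨hn, i, hi, h, hmin⟩ q hq
  have h1 := stem_prefix hq j
  refine ⟨hn, i, hi.trans h1.length_le, by rw [off_prefix h1 hi, h], fun i' hi' => ?_⟩
  by_cases h2 : i' ≤ (PP.toC (Γ := Γ) p j).stem.length
  · rw [off_prefix h1 h2]
    exact hmin i' h2
  · right
    have h3 := off_mono (PP.toC (Γ := Γ) q j).stem
      (show (PP.toC (Γ := Γ) p j).stem.length ≤ i' by omega)
    rw [off_prefix h1 le_rfl, off_length] at h3
    have h4 := off_le_len (PP.toC (Γ := Γ) p j).stem i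
    omega

theorem exists_genD {r : PP Γ} {n : ℕ} (h : n ≤ len (PP.toC (Γ := Γ) r j).stem) :
    ∃ b, r ∈ genD Γ j n b := by
  have hex : ∃ b, n ≤ b ∧ ∃ i ≤ (PP.toC (Γ := Γ) r j).stem.length,
      off (PP.toC (Γ := Γ) r j).stem i = b := ⟨_, h, _, le_rfl, off_length _⟩
  obtain ⟨h1, i, hi, h2⟩ := Nat.find_spec hex
  refine ⟨Nat.find hex, h1, i, hi, h2, fun i' hi' => ?_⟩
  by_contra hcon
  push Not at hcon
  exact Nat.find_min hex hcon.2 ⟨hcon.1, i', hi', rfl⟩

theorem genD_unique {r : PP Γ} {n b b' : ℕ} (h : r ∈ genD Γ j n b) (h' : r ∈ genD Γ j n b') :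
    b = b' := by
  obtain ⟨h1, i, hi, h2, h3⟩ := h
  obtain ⟨h1', i', hi', h2', h3'⟩ := h'
  have h4 := h3 i' hi'
  have h5 := h3' i hi
  omega

theorem isFun_genD (hA : Γ.A j = allName K I) (p : PP Γ) : p ∈ IsFun (genD Γ j) := by
  refine ⟨fun n => ?_, fun n b b' => ?_⟩
  · refine mem_fex.2 fun q _ => ?_
    obtain ⟨r, hr, β, hβ, h⟩ := exists_block_long hA n q
    have hlen : n ≤ len (PP.toC (Γ := Γ) r j).stem := by
      rw [h]
      simp only [len, List.flatten_append, List.length_append, List.flatten_cons,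
        List.flatten_nil, List.append_nil]
      omega
    obtain ⟨b, hb⟩ := exists_genD hlen
    exact ⟨r, hr, b, meets_of_mem hb⟩
  · refine mem_fimp.2 fun q _ hq => ⟨q, le_rfl, ?_⟩
    obtain ⟨r1, hr1, h1⟩ := mem_meets_of_down (down_genD j n b) hq.1
    obtain ⟨r2, hr2, h2⟩ := mem_meets_of_down (down_genD j n b') (down_meets _ _ hq.2 r1 hr1)
    exact genD_unique (down_genD j n b _ h1 r2 hr2) h2

end

/-- least witnesses -/
theorem exists_least {S : Set I} (hS : IsLowerSet S) (W : ℕ → ℕ → Set (Cond K I))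
    (hop : ∀ l a, Op Γ S (W l a)) (hd : ∀ l p, ∃ q, le Γ S q p ∧ ∃ a, q ∈ W l a) :
    ∃ g : VN Γ S ℕ, ∀ l a, g.val l a ⊆ W l a := by
  refine ⟨⟨fun l a => {p | p ∈ W l a ∧ ∀ q, le Γ S q p → ∀ v < a, q ∉ W l v}, ?_, ?_, ?_⟩,
    fun l a p hp => hp.1⟩
  · rintro l a p ⟨h1, h2⟩ q hq
    exact ⟨hop l a p h1 q hq, fun r hr => h2 r (le_trans' hS hr hq)⟩
  · rintro l p a a' ⟨h1, h2⟩ ⟨h3, h4⟩
    rcases lt_trichotomy a a' with h | h | h
    · exact absurd h1 (h4 p (le_refl' S p) a h)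
    · exact h
    · exact absurd h3 (h2 p (le_refl' S p) a' h)
  · intro l p
    have h4 : ∃ v, ∃ r, le Γ S r p ∧ r ∈ W l v := by
      obtain ⟨r, hr, a', ha'⟩ := hd l p
      exact ⟨a', r, hr, ha'⟩
    obtain ⟨r, hr, hr'⟩ := Nat.find_spec h4
    refine ⟨r, hr, Nat.find h4, hr', ?_⟩
    intro s hs v hv hsv
    exact Nat.find_min h4 hv ⟨s, le_trans' hS hs hr, hsv⟩

/-- the conditions which force that the generic partition at `j` has no element between the
values of `z` at `M` and at `M + 1` -/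
def Gap (Γ : Par K I) {δ : I} (j : I) (z : VN Γ (Set.Iio δ) ℕ) (κ M : ℕ) : Set (Cond K I) :=
  {p | κ ≤ M ∧ ∃ a a', p ∈ z.val M a ∧ p ∈ z.val (M + 1) a' ∧ a' < len (p j).stem ∧
    ∀ i ≤ (p j).stem.length, off (p j).stem i < a ∨ a' < off (p j).stem i}

theorem gap_op {S : Set I} {δ j : I} (hδS : Set.Iio δ ⊆ S) (hj : j ∈ S)
    (z : VN Γ (Set.Iio δ) ℕ) (κ M : ℕ) : Op Γ S (Gap Γ j z κ M) := by
  rintro p ⟨h1, a, a', h2, h3, h4, h5⟩ q hq
  have h6 : (p j).stem <+: (q j).stem := ext_stem (hq j hj)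
  refine ⟨h1, a, a', z.op _ _ p h2 q (le_mono hδS hq), z.op _ _ p h3 q (le_mono hδS hq),
    h4.trans_le (len_prefix h6), fun i hi => ?_⟩
  by_cases h7 : i ≤ (p j).stem.length
  · rw [off_prefix h6 h7]
    exact h5 i h7
  · right
    have h8 := off_mono (q j).stem (show (p j).stem.length ≤ i by omega)
    rw [off_prefix h6 le_rfl, off_length] at h8
    omega

theorem gap_dense {δ j : I} (hδj : δ ≤ j) (hA : Γ.A j = allName K I) (z : VN Γ (Set.Iio δ) ℕ)
    (hz : Incr z) (κ : ℕ) (p : Cond K I) :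
    ∃ q, le Γ Set.univ q p ∧ ∃ M, q ∈ Gap Γ j z κ M := by
  have hU := isLowerSet_univ (α := I)
  have hδ := lower_Iio δ
  obtain ⟨M, hM1, hM2⟩ : ∃ M, κ ≤ M ∧ len (p j).stem < M :=
    ⟨max κ (len (p j).stem + 1), le_max_left _ _, Nat.lt_of_succ_le (le_max_right _ _)⟩
  obtain ⟨q1, hq1, a, ha⟩ := z.dense M p
  obtain ⟨q2, hq2, a', ha'⟩ := z.dense (M + 1) q1
  have ha2 := z.op _ _ q1 ha q2 hq2
  have h1 : le Γ Set.univ (mix (Set.Iio δ) q2 p) p := mix_le hδ (le_trans' hδ hq2 hq1)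
  have h2 : le Γ (Set.Iio δ) (mix (Set.Iio δ) q2 p) q2 :=
    le_of_eq hδ fun i hi => mix_mem _ _ hi
  have h3 : (mix (Set.Iio δ) q2 p) j = p j := mix_notMem _ _ (by simpa using hδj)
  obtain ⟨q3, hq3, β, hβ, h4⟩ := exists_block_long (Γ := Γ) hA (a' + 1) (mix (Set.Iio δ) q2 p)
  obtain ⟨r, hr⟩ : ∃ r : Cond K I, r = q3 := ⟨q3, rfl⟩
  subst hr
  have h4' : r j = ⟨(p j).stem ++ [β], (p j).pr⟩ := by
    rw [← h3]
    exact h4
  have h5 : le Γ (Set.Iio δ) r q2 := le_trans' hδ (le_mono (Set.subset_univ _) hq3) h2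
  have hMa := hz.ge hδ ha
  refine ⟨r, le_trans' hU hq3 h1, M, hM1, a, a', z.op _ _ q2 ha2 r h5, z.op _ _ q2 ha' r h5,
    ?_, fun i hi => ?_⟩
  · rw [h4']
    simp only [len, List.flatten_append, List.length_append, List.flatten_cons,
      List.flatten_nil, List.append_nil]
    omega
  · rw [h4'] at hi ⊢
    simp only [List.length_append, List.length_singleton] at hi ⊢
    rcases Nat.lt_or_ge i ((p j).stem.length + 1) with h6 | h6
    · left
      rw [off_prefix (List.prefix_append _ _) (Nat.le_of_lt_succ h6)]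
      have := off_le_len (p j).stem i
      omega
    · right
      have h7 : i = (p j).stem.length + 1 := by omega
      subst h7
      rw [off_snoc_right]
      omega

/-- **The generic partitions are not bounded.** -/
theorem unboundedN_small (hΓ : Full Γ) {i₀ : I} (hCB : CB (Set.Iio i₀)) {W : Type} (f : W → I)
    (hf : ∀ w, f w < i₀) (hcof : ∀ β < i₀, ∃ w, β ≤ f w)
    (hA : ∀ w, Γ.A (f w) = allName K I) (p : PP Γ) : p ∈ UnboundedN (PP Γ) W := by
  have hU := isLowerSet_univ (α := I)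
  have hlow := lower_Iio i₀
  refine mem_fex_of_mem (fun w => genD Γ (f w))
    (down_fand (down_fall fun _ => down_IsFun _) (down_fall fun _ => down_fimp _ _)) ?_
  refine ⟨fun w => isFun_genD (hA w) p, fun F => ?_⟩
  refine mem_fimp.2 fun q _ hF => ⟨q, le_rfl, ?_⟩
  -- the name of a bound for `F`
  let φ : BN Γ Set.univ :=
    { U := fun m v => {t : PP Γ | (∃ v' ≤ v, t ∈ meets (F m v')) ∨ ∀ s, s ≤ t → ¬ s ≤ q}
      op := by
        rintro m v t (⟨v', hv, ht⟩ | ht) t' ht'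
        · exact Or.inl ⟨v', hv, down_meets _ _ ht t' ht'⟩
        · exact Or.inr fun s hs => ht s (le_trans' isLowerSet_univ hs ht')
      mono := by
        rintro m v v' hv t (⟨w, hw, ht⟩ | ht)
        · exact Or.inl ⟨w, hw.trans hv, ht⟩
        · exact Or.inr ht
      dense := by
        intro m t
        by_cases h : ∃ s : PP Γ, le Γ Set.univ s t ∧ s ≤ q
        · obtain ⟨s, hs, hsq⟩ := h
          obtain ⟨s', hs', v, hv⟩ := IsFun.total (down_IsFun F q hF s hsq) m
          exact ⟨s', le_trans' isLowerSet_univ hs' hs, v, Or.inl ⟨v, le_rfl, hv⟩⟩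
        · exact ⟨t, le_refl' _ t, 0, Or.inr fun s hs hsq => h ⟨s, hs, hsq⟩⟩ }
  obtain ⟨A, hAi, hrun⟩ := da hΓ hlow Set.univ hU (Set.subset_univ _) φ
  -- reduction to an earlier coordinate
  have hne : ∃ δ₀, δ₀ ∈ Set.Iio i₀ := by
    obtain ⟨δ, hδ, -⟩ := hCB ∅ Set.countable_empty (Set.empty_subset _)
    exact ⟨δ, hδ⟩
  obtain ⟨δ₀, hδ₀⟩ := hne
  obtain ⟨δ, hδ, -, z, hz⟩ := A.reduce hCB hlow hδ₀
  have hzi : Incr z := fun n t a a' h h' => hAi n t a a' (hz _ _ h) (hz _ _ h')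
  obtain ⟨w, hw⟩ := hcof δ hδ
  have hδS : Set.Iio δ ⊆ Set.Iio i₀ := fun i hi => (show i < δ from hi).trans hδ
  obtain ⟨g, hg⟩ := exists_least (Γ := Γ) hlow (fun κ M => Gap Γ (f w) z κ M)
    (fun κ M => gap_op hδS (hf w) z κ M) (fun κ t => by
      obtain ⟨s, hs, M, hM⟩ := gap_dense hw (hA w) z hzi κ t
      exact ⟨s, le_mono (Set.subset_univ _) hs, M, hM⟩)
  refine mem_fex_of_mem w (down_fall fun _ => down_fex _) fun N => ?_
  refine mem_fex.2 fun q' hq' => ?_
  obtain ⟨κ, hκ, r, hr, M, hM, hl⟩ := hrun g () q' N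
  obtain ⟨hκM, a, a', h1, h2, h3, h4⟩ := hg κ M hM
  obtain ⟨b, b', h5, h6, h7⟩ := hl M hκM le_rfl
  obtain rfl := A.uniq _ r _ _ h5 (hz _ _ h1)
  obtain rfl := A.uniq _ r _ _ h6 (hz _ _ h2)
  rcases h7 with ⟨v', hv', h8⟩ | h8
  · have hbb' : b < b' := hAi _ r _ _ h5 h6
    obtain ⟨d, hd⟩ := exists_genD (Γ := Γ) (j := f w) (r := r) (n := b)
      ((hbb'.trans h3).le)
    have hMb := hAi.ge hlow h5
    have hbd : b' < d := by
      obtain ⟨h9, i, hi, h10, -⟩ := hd
      have h11 := h4 i hi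
      have h12 : off (r (f w)).stem i = d := h10
      omega
    refine ⟨r, hr, b, mem_fground.2 (by omega), ?_⟩
    refine mem_fex_of_mem v' (down_fex _) ?_
    refine mem_fex_of_mem d (down_fand (down_meets _)
      (down_fand (down_meets _) (down_fground _))) ⟨h8, meets_of_mem hd, ?_⟩
    have h13 : v' ≤ b' := hv'
    exact lt_of_le_of_lt h13 hbd
  · exact absurd (le_trans' isLowerSet_univ hr hq') (h8 r (le_refl' _ r))

end Pool.Agent.KS6_46.BM
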